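import Pool.Agent.H98.Cubic.Targets

/-! Module Abel (removal of a monotone weight) for MP_56c76e_nt, blueprint of helper98. -/

set_option autoImplicit false

open Finset

namespace Pool.Agent.H67.Cubic

open Pool.Agent.H98.Cubic

theorem lower_sum {ι : Type} (s : Finset ι) (v : ι → ℝ) (F : ι → ℂ) {B : ℝ} (hB : 0 ≤ B)
    (h : ∀ c : ℝ, ‖∑ i ∈ s.filter (fun i => v i ≤ c), F i‖ ≤ B) (T : Finset ι) (hT : T ⊆ s)
    (hlow : ∀ i ∈ T, ∀ j ∈ s, v j ≤ v i → j ∈ T) : ‖∑ i ∈ T, F i‖ ≤ B := by
  rcases T.eq_empty_or_nonempty with h0 | h0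
  · rw [h0, Finset.sum_empty, norm_zero]
    exact hB
  · obtain ⟨m, hm, hmax⟩ := T.exists_max_image v h0
    have : T = s.filter (fun i => v i ≤ v m) := by
      ext i
      rw [Finset.mem_filter]
      constructor
      · intro hi
        exact ⟨hT hi, hmax i hi⟩
      · rintro ⟨hi, hle⟩
        exact hlow m hm i hi hle
    rw [this]
    exact h _

theorem layer (M a : ℝ) (h0 : 0 ≤ a) (h1 : a ≤ M) (z : ℂ) :
    IntervalIntegrable (fun t : ℝ => if t ≤ a then z else 0) MeasureTheory.volume 0 M ∧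
    ∫ t in (0 : ℝ)..M, (if t ≤ a then z else 0) = (a : ℂ) * z := by
  have e1 : ∀ t ∈ Set.uIoc 0 a, (fun t : ℝ => if t ≤ a then z else 0) t = (fun _ => z) t := by
    intro t ht
    rw [Set.uIoc_of_le h0] at ht
    simp only
    rw [if_pos ht.2]
  have e2 : ∀ t ∈ Set.uIoc a M, (fun t : ℝ => if t ≤ a then z else 0) t = (fun _ => (0 : ℂ)) t := by
    intro t ht
    rw [Set.uIoc_of_le h1] at ht
    simp only
    rw [if_neg (not_le.mpr ht.1)]
  have i1 : IntervalIntegrable (fun t : ℝ => if t ≤ a then z else 0) MeasureTheory.volume 0 a := by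
    refine (intervalIntegrable_const (c := z)).congr_ae ?_
    rw [Filter.EventuallyEq, MeasureTheory.ae_restrict_iff' measurableSet_uIoc]
    exact Filter.Eventually.of_forall fun t ht => (e1 t ht).symm
  have i2 : IntervalIntegrable (fun t : ℝ => if t ≤ a then z else 0) MeasureTheory.volume a M := by
    refine (intervalIntegrable_const (c := (0 : ℂ))).congr_ae ?_
    rw [Filter.EventuallyEq, MeasureTheory.ae_restrict_iff' measurableSet_uIoc]
    exact Filter.Eventually.of_forall fun t ht => (e2 t ht).symm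
  refine ⟨i1.trans i2, ?_⟩
  rw [← intervalIntegral.integral_add_adjacent_intervals i1 i2,
    intervalIntegral.integral_congr_ae (Filter.Eventually.of_forall e1),
    intervalIntegral.integral_congr_ae (Filter.Eventually.of_forall e2)]
  simp

/-- Module Abel. -/
theorem abel : TAbel := by
  intro ι s v F φ M B hmono hφ hM hB h
  have h1 : ∑ i ∈ s, ((φ (v i) : ℝ) : ℂ) * F i =
      ∫ t in (0 : ℝ)..M, ∑ i ∈ s, (if t ≤ φ (v i) then F i else 0) := by
    rw [intervalIntegral.integral_finset_sum]
    · refine Finset.sum_congr rfl fun i hi => ?_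
      exact ((layer M (φ (v i)) (hφ i hi).1 (hφ i hi).2 (F i)).2).symm
    · intro i hi
      exact (layer M (φ (v i)) (hφ i hi).1 (hφ i hi).2 (F i)).1
  have hall : ‖∑ i ∈ s, F i‖ ≤ B :=
    lower_sum s v F hB h s (Finset.Subset.refl _) (fun _ _ j hj _ => hj)
  have h2 : ∀ t ∈ Set.uIoc 0 M, ‖∑ i ∈ s, (if t ≤ φ (v i) then F i else 0)‖ ≤ 2 * B := by
    intro t _
    rcases hmono with hm | hm
    · rw [← Finset.sum_filter]
      have := lower_sum s v F hB h (s.filter (fun i => t ≤ φ (v i))) (Finset.filter_subset _ _) (by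
        intro i hi j hj hji
        rw [Finset.mem_filter] at hi ⊢
        exact ⟨hj, hi.2.trans (hm j hj i hi.1 hji)⟩)
      linarith
    · have e : ∑ i ∈ s, (if t ≤ φ (v i) then F i else 0) =
          ∑ i ∈ s, F i - ∑ i ∈ s.filter (fun i => φ (v i) < t), F i := by
        rw [Finset.sum_filter, ← Finset.sum_sub_distrib]
        refine Finset.sum_congr rfl fun i _ => ?_
        by_cases hc : t ≤ φ (v i)
        · rw [if_pos hc, if_neg (not_lt.mpr hc), sub_zero]
        · rw [if_neg hc, if_pos (not_le.mp hc), sub_self]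
      rw [e]
      have := lower_sum s v F hB h (s.filter (fun i => φ (v i) < t)) (Finset.filter_subset _ _) (by
        intro i hi j hj hji
        rw [Finset.mem_filter] at hi ⊢
        exact ⟨hj, lt_of_le_of_lt (hm j hj i hi.1 hji) hi.2⟩)
      have := norm_sub_le (∑ i ∈ s, F i) (∑ i ∈ s.filter (fun i => φ (v i) < t), F i)
      linarith
  rw [h1]
  have h3 := intervalIntegral.norm_integral_le_of_norm_le_const h2
  rw [sub_zero, abs_of_nonneg hM] at h3
  linarith

end Pool.Agent.H67.Cubic
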