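import Pool.Agent.H98.Cubic.Targets

/-! Module Fres (incomplete Fresnel integrals) for MP_56c76e_nt, blueprint of helper98. -/

set_option autoImplicit false

open MeasureTheory Set Filter Topology

namespace Pool.Agent.H67.Cubic

open Pool.Agent.H98.Cubic

/-- Tail of a Gaussian integral with complex parameter. -/
theorem tail_bound (b : ℂ) (hb : 0 ≤ b.re) (hb1 : Real.pi ≤ ‖b‖) {a R : ℝ} (ha : 0 < a)
    (haR : a ≤ R) : ‖∫ s in a..R, Complex.exp (-b * (s : ℂ) ^ 2)‖ ≤ 1 / (Real.pi * a) := by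
  have hpi := Real.pi_pos
  have hbn : 0 < ‖b‖ := lt_of_lt_of_le hpi hb1
  have hb0 : b ≠ 0 := norm_pos_iff.mp hbn
  have hR : 0 < R := lt_of_lt_of_le ha haR
  have hpos : ∀ x ∈ uIcc a R, 0 < x := by
    intro x hx
    rw [uIcc_of_le haR] at hx
    exact lt_of_lt_of_le ha hx.1
  have hv : ∀ x ∈ uIcc a R, HasDerivAt (fun s : ℝ => Complex.exp (-b * (s : ℂ) ^ 2))
      (-2 * b * x * Complex.exp (-b * (x : ℂ) ^ 2)) x := by
    intro x _
    have h1 : HasDerivAt (fun s : ℝ => (s : ℂ)) 1 x := Complex.ofRealCLM.hasDerivAt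
    have h2 := ((h1.fun_pow 2).const_mul (-b)).cexp
    refine h2.congr_deriv ?_
    norm_num
    ring
  have hu : ∀ x ∈ uIcc a R, HasDerivAt (fun s : ℝ => -1 / (2 * b) * ((s : ℂ))⁻¹)
      (1 / (2 * b) * ((x : ℂ) ^ 2)⁻¹) x := by
    intro x hx
    have hx0 : (x : ℂ) ≠ 0 := by exact_mod_cast (hpos x hx).ne'
    have h1 : HasDerivAt (fun s : ℝ => (s : ℂ)) 1 x := Complex.ofRealCLM.hasDerivAt
    have h2 := (h1.fun_inv hx0).const_mul (-1 / (2 * b))
    refine h2.congr_deriv ?_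
    ring
  have hvc : ContinuousOn (fun x : ℝ => -2 * b * x * Complex.exp (-b * (x : ℂ) ^ 2))
      (uIcc a R) := by
    apply Continuous.continuousOn
    fun_prop
  have huc : ContinuousOn (fun x : ℝ => 1 / (2 * b) * ((x : ℂ) ^ 2)⁻¹) (uIcc a R) := by
    apply ContinuousOn.mul continuousOn_const
    apply ContinuousOn.inv₀
    · apply Continuous.continuousOn
      fun_prop
    · intro x hx
      have hx0 : (x : ℂ) ≠ 0 := by exact_mod_cast (hpos x hx).ne'
      exact pow_ne_zero 2 hx0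
  have hparts := intervalIntegral.integral_mul_deriv_eq_deriv_mul hu hv
    huc.intervalIntegrable hvc.intervalIntegrable
  have hcongr : (∫ s in a..R, Complex.exp (-b * (s : ℂ) ^ 2)) =
      ∫ x in a..R, (-1 / (2 * b) * ((x : ℂ))⁻¹) * (-2 * b * x * Complex.exp (-b * (x : ℂ) ^ 2)) := by
    apply intervalIntegral.integral_congr
    intro x hx
    have hx0 : (x : ℂ) ≠ 0 := by exact_mod_cast (hpos x hx).ne'
    simp only
    field_simp
  rw [hcongr, hparts]
  have hexp : ∀ x : ℝ, ‖Complex.exp (-b * (x : ℂ) ^ 2)‖ ≤ 1 := by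
    intro x
    rw [Complex.norm_exp]
    have : (-b * (x : ℂ) ^ 2).re = -(b.re * x ^ 2) := by
      have : ((x : ℂ) ^ 2) = ((x ^ 2 : ℝ) : ℂ) := by push_cast; rfl
      rw [this, Complex.re_mul_ofReal]
      simp
    rw [this]
    apply Real.exp_le_one_iff.mpr
    have := mul_nonneg hb (sq_nonneg x)
    linarith
  have hbd : ∀ x : ℝ, 0 < x → ‖-1 / (2 * b) * ((x : ℂ))⁻¹ * Complex.exp (-b * (x : ℂ) ^ 2)‖ ≤
      1 / (2 * ‖b‖) * x⁻¹ := by
    intro x hx
    rw [norm_mul, norm_mul, norm_div, norm_neg, norm_one, norm_mul, norm_inv, Complex.norm_ofNat,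
      Complex.norm_real, Real.norm_of_nonneg hx.le]
    have h1 : 0 ≤ 1 / (2 * ‖b‖) * x⁻¹ := by positivity
    calc 1 / (2 * ‖b‖) * x⁻¹ * ‖Complex.exp (-b * (x : ℂ) ^ 2)‖ ≤ 1 / (2 * ‖b‖) * x⁻¹ * 1 :=
          mul_le_mul_of_nonneg_left (hexp x) h1
      _ = _ := by ring
  have hint : ‖∫ x in a..R, 1 / (2 * b) * ((x : ℂ) ^ 2)⁻¹ * Complex.exp (-b * (x : ℂ) ^ 2)‖ ≤
      ∫ x in a..R, 1 / (2 * ‖b‖) * (x ^ 2)⁻¹ := by
    apply intervalIntegral.norm_integral_le_of_norm_le haR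
    · refine Filter.Eventually.of_forall fun x hx => ?_
      have hx0 : 0 < x := lt_trans ha hx.1
      rw [norm_mul, norm_mul, norm_div, norm_one, norm_mul, norm_inv, norm_pow, Complex.norm_ofNat,
        Complex.norm_real, Real.norm_of_nonneg hx0.le]
      have h1 : 0 ≤ 1 / (2 * ‖b‖) * (x ^ 2)⁻¹ := by positivity
      calc 1 / (2 * ‖b‖) * (x ^ 2)⁻¹ * ‖Complex.exp (-b * (x : ℂ) ^ 2)‖
          ≤ 1 / (2 * ‖b‖) * (x ^ 2)⁻¹ * 1 := mul_le_mul_of_nonneg_left (hexp x) h1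
        _ = _ := by ring
    · apply ContinuousOn.intervalIntegrable
      apply ContinuousOn.mul continuousOn_const
      apply ContinuousOn.inv₀
      · apply Continuous.continuousOn
        fun_prop
      · intro x hx
        exact pow_ne_zero 2 (hpos x hx).ne'
  have hval : ∫ x in a..R, 1 / (2 * ‖b‖) * (x ^ 2)⁻¹ = 1 / (2 * ‖b‖) * (a⁻¹ - R⁻¹) := by
    have hd : ∀ x ∈ uIcc a R, HasDerivAt (fun s : ℝ => -(1 / (2 * ‖b‖)) * s⁻¹)
        (1 / (2 * ‖b‖) * (x ^ 2)⁻¹) x := by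
      intro x hx
      have h2 := (hasDerivAt_inv (hpos x hx).ne').const_mul (-(1 / (2 * ‖b‖)))
      refine h2.congr_deriv ?_
      ring
    rw [intervalIntegral.integral_eq_sub_of_hasDerivAt hd]
    · ring
    · apply ContinuousOn.intervalIntegrable
      apply ContinuousOn.mul continuousOn_const
      apply ContinuousOn.inv₀
      · apply Continuous.continuousOn
        fun_prop
      · intro x hx
        exact pow_ne_zero 2 (hpos x hx).ne'
  rw [hval] at hint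
  have h1 := hbd R hR
  have h2 := hbd a ha
  have h3 : 1 / (2 * ‖b‖) * R⁻¹ + 1 / (2 * ‖b‖) * a⁻¹ + 1 / (2 * ‖b‖) * (a⁻¹ - R⁻¹)
      = 1 / (‖b‖ * a) := by
    field_simp
    ring
  have h4 : 1 / (‖b‖ * a) ≤ 1 / (Real.pi * a) := by
    apply one_div_le_one_div_of_le
    · positivity
    · exact mul_le_mul_of_nonneg_right hb1 ha.le
  calc _ ≤ ‖-1 / (2 * b) * ((R : ℂ))⁻¹ * Complex.exp (-b * (R : ℂ) ^ 2)‖ +
        ‖-1 / (2 * b) * ((a : ℂ))⁻¹ * Complex.exp (-b * (a : ℂ) ^ 2)‖ +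
        ‖∫ x in a..R, 1 / (2 * b) * ((x : ℂ) ^ 2)⁻¹ * Complex.exp (-b * (x : ℂ) ^ 2)‖ := by
        refine (norm_sub_le _ _).trans ?_
        gcongr
        exact norm_sub_le _ _
    _ ≤ 1 / (2 * ‖b‖) * R⁻¹ + 1 / (2 * ‖b‖) * a⁻¹ + 1 / (2 * ‖b‖) * (a⁻¹ - R⁻¹) := by
        gcongr
    _ = 1 / (‖b‖ * a) := h3
    _ ≤ _ := h4

/-- Gaussian with positive real part. -/
theorem gauss_bound (b : ℂ) (hb : 0 < b.re) (hb1 : Real.pi ≤ ‖b‖) {a : ℝ} (ha : 0 < a) :
    ‖(∫ s in (0 : ℝ)..a, Complex.exp (-b * (s : ℂ) ^ 2)) - ((Real.pi : ℂ) / b) ^ (1 / 2 : ℂ) / 2‖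
      ≤ 1 / (Real.pi * a) := by
  have hI : Integrable (fun s : ℝ => Complex.exp (-b * (s : ℂ) ^ 2)) := integrable_cexp_neg_mul_sq hb
  have hlim : Tendsto (fun R : ℝ => ∫ s in (0 : ℝ)..R, Complex.exp (-b * (s : ℂ) ^ 2)) atTop
      (𝓝 (((Real.pi : ℂ) / b) ^ (1 / 2 : ℂ) / 2)) := by
    have := intervalIntegral_tendsto_integral_Ioi (μ := volume) (0 : ℝ)
      (hI.integrableOn (s := Ioi 0)) tendsto_id
    rw [integral_gaussian_complex_Ioi hb] at this
    exact this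
  have hlim2 := (tendsto_const_nhds (x := ∫ s in (0 : ℝ)..a, Complex.exp (-b * (s : ℂ) ^ 2))).sub
    hlim
  refine le_of_tendsto hlim2.norm ?_
  filter_upwards [eventually_ge_atTop a] with R hR
  rw [← norm_neg, neg_sub, intervalIntegral.integral_interval_sub_left]
  · exact tail_bound b hb.le hb1 ha hR
  · exact hI.intervalIntegrable
  · exact hI.intervalIntegrable

/-- The Fresnel integral. -/
theorem fresnel_bound {a : ℝ} (ha : 0 < a) :
    ‖(∫ s in (0 : ℝ)..a, Complex.exp (Real.pi * Complex.I * (s : ℂ) ^ 2)) -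
      Complex.exp (Real.pi * Complex.I / 4) / 2‖ ≤ 1 / (Real.pi * a) := by
  have hpi := Real.pi_pos
  have hc : Continuous (fun δ : ℝ => ∫ s in (0 : ℝ)..a,
      Complex.exp (-((δ : ℂ) - Real.pi * Complex.I) * (s : ℂ) ^ 2)) := by
    apply intervalIntegral.continuous_parametric_intervalIntegral_of_continuous'
    fun_prop
  have h1 : Tendsto (fun δ : ℝ => ∫ s in (0 : ℝ)..a,
      Complex.exp (-((δ : ℂ) - Real.pi * Complex.I) * (s : ℂ) ^ 2)) (𝓝[>] 0)
      (𝓝 (∫ s in (0 : ℝ)..a, Complex.exp (Real.pi * Complex.I * (s : ℂ) ^ 2))) := by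
    have := (hc.tendsto 0).mono_left (nhdsWithin_le_nhds (s := Ioi (0 : ℝ)))
    simpa using this
  have h2 : Tendsto (fun δ : ℝ => ((Real.pi : ℂ) / ((δ : ℂ) - Real.pi * Complex.I)) ^ (1 / 2 : ℂ) / 2)
      (𝓝[>] 0) (𝓝 (Complex.exp (Real.pi * Complex.I / 4) / 2)) := by
    have hval : ((Real.pi : ℂ) / (((0 : ℝ) : ℂ) - Real.pi * Complex.I)) = Complex.I := by
      have : (Real.pi : ℂ) ≠ 0 := by exact_mod_cast hpi.ne'
      rw [Complex.ofReal_zero, zero_sub, div_neg, ← div_div, div_self this]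
      simp
    have hI : Complex.I ^ (1 / 2 : ℂ) = Complex.exp (Real.pi * Complex.I / 4) := by
      rw [Complex.cpow_def_of_ne_zero Complex.I_ne_zero, Complex.log_I]
      congr 1
      ring
    rw [← hI]
    have hcont : ContinuousAt (fun δ : ℝ =>
        ((Real.pi : ℂ) / ((δ : ℂ) - Real.pi * Complex.I)) ^ (1 / 2 : ℂ) / 2) 0 := by
      apply ContinuousAt.div_const
      apply ContinuousAt.cpow
      · apply ContinuousAt.div
        · fun_prop
        · fun_prop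
        · simp [hpi.ne']
      · fun_prop
      · rw [hval]
        simp [Complex.mem_slitPlane_iff]
    have h3 := hcont.tendsto.mono_left (nhdsWithin_le_nhds (s := Ioi (0 : ℝ)))
    rw [hval] at h3
    exact h3
  refine le_of_tendsto (h1.sub h2).norm ?_
  filter_upwards [self_mem_nhdsWithin] with δ hδ
  apply gauss_bound
  · simpa using hδ
  · have h3 : |((δ : ℂ) - Real.pi * Complex.I).im| ≤ ‖((δ : ℂ) - Real.pi * Complex.I)‖ :=
      Complex.abs_im_le_norm _
    simpa [abs_of_pos hpi] using h3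
  · exact ha

/-- Normalised form with a uniform bound. -/
theorem fresnel_unif {a : ℝ} (ha : 0 ≤ a) :
    ‖(∫ s in (0 : ℝ)..a, Complex.exp (Real.pi * Complex.I * (s : ℂ) ^ 2)) -
      Complex.exp (Real.pi * Complex.I / 4) / 2‖ ≤ 3 / (1 + a) := by
  have hpi := Real.pi_gt_three
  rcases le_or_gt a 1 with h | h
  · have h1 : ‖∫ s in (0 : ℝ)..a, Complex.exp (Real.pi * Complex.I * (s : ℂ) ^ 2)‖ ≤ 1 * |a - 0| := by
      apply intervalIntegral.norm_integral_le_of_norm_le_const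
      intro x _
      rw [Complex.norm_exp]
      have : ((Real.pi : ℂ) * Complex.I * (x : ℂ) ^ 2).re = 0 := by
        have : ((x : ℂ) ^ 2) = ((x ^ 2 : ℝ) : ℂ) := by push_cast; rfl
        rw [this, Complex.re_mul_ofReal]
        simp
      rw [this, Real.exp_zero]
    have h2 : ‖Complex.exp (Real.pi * Complex.I / 4) / 2‖ = 1 / 2 := by
      rw [norm_div, Complex.norm_exp]
      have : ((Real.pi : ℂ) * Complex.I / 4).re = 0 := by simp
      rw [this, Real.exp_zero]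
      simp
    have h3 := norm_sub_le (∫ s in (0 : ℝ)..a, Complex.exp (Real.pi * Complex.I * (s : ℂ) ^ 2))
      (Complex.exp (Real.pi * Complex.I / 4) / 2)
    rw [sub_zero, abs_of_nonneg ha, one_mul] at h1
    have h4 : 3 / 2 ≤ 3 / (1 + a) := by
      apply div_le_div_of_nonneg_left <;> linarith
    linarith
  · refine (fresnel_bound (by linarith)).trans ?_
    rw [div_le_div_iff₀ (by positivity) (by positivity)]
    nlinarith

/-- Odd extension: for every real `a`, `∫_0^a = sgn(a) e(1/8)/2 + O(1/(1+|a|))`. -/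
theorem fresnel_neg (a : ℝ) :
    (∫ s in (0 : ℝ)..(-a), Complex.exp (Real.pi * Complex.I * (s : ℂ) ^ 2)) =
      -∫ s in (0 : ℝ)..a, Complex.exp (Real.pi * Complex.I * (s : ℂ) ^ 2) := by
  have h := intervalIntegral.integral_comp_neg (a := 0) (b := a)
    (fun s : ℝ => Complex.exp (Real.pi * Complex.I * (s : ℂ) ^ 2))
  simp only [Complex.ofReal_neg, neg_sq, neg_zero] at h
  rw [intervalIntegral.integral_symm, ← h]

/-- Normalised form of the module. -/
theorem fresnel_interval {a₁ a₂ : ℝ} (h : a₁ ≤ a₂) :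
    ‖(∫ s in a₁..a₂, Complex.exp (Real.pi * Complex.I * (s : ℂ) ^ 2)) -
      (if a₁ ≤ 0 ∧ 0 ≤ a₂ then Complex.exp (Real.pi * Complex.I / 4) else 0)‖
      ≤ 4 * (1 / (1 + |a₁|) + 1 / (1 + |a₂|)) := by
  set f : ℝ → ℂ := fun s => Complex.exp (Real.pi * Complex.I * (s : ℂ) ^ 2) with hf
  set E : ℂ := Complex.exp (Real.pi * Complex.I / 4) with hE
  have hint : ∀ x y : ℝ, IntervalIntegrable f volume x y := by
    intro x y
    apply Continuous.intervalIntegrable
    rw [hf]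
    fun_prop
  have hsub : (∫ s in a₁..a₂, f s) = (∫ s in (0 : ℝ)..a₂, f s) - ∫ s in (0 : ℝ)..a₁, f s :=
    (intervalIntegral.integral_interval_sub_left (hint _ _) (hint _ _)).symm
  have hEn : ‖E‖ = 1 := by
    rw [hE, Complex.norm_exp]
    have : ((Real.pi : ℂ) * Complex.I / 4).re = 0 := by simp
    rw [this, Real.exp_zero]
  have p1 : 0 < 1 / (1 + |a₁|) := by positivity
  have p2 : 0 < 1 / (1 + |a₂|) := by positivity
  have e3 : ∀ x : ℝ, 3 / (1 + x) = 3 * (1 / (1 + x)) := fun x => by ring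
  rcases lt_trichotomy a₁ 0 with h1 | h1 | h1
  · rcases lt_or_ge a₂ 0 with h2 | h2
    · rw [if_neg (by intro h3; linarith [h3.2]), sub_zero, hsub]
      have b1 := fresnel_unif (a := -a₁) (by linarith)
      have b2 := fresnel_unif (a := -a₂) (by linarith)
      rw [fresnel_neg, e3, ← abs_of_neg h1] at b1
      rw [fresnel_neg, e3, ← abs_of_neg h2] at b2
      have e : (∫ s in (0 : ℝ)..a₂, f s) - ∫ s in (0 : ℝ)..a₁, f s =
          (-(∫ s in (0 : ℝ)..a₁, f s) - E / 2) - (-(∫ s in (0 : ℝ)..a₂, f s) - E / 2) := by ring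
      rw [e]
      refine (norm_sub_le _ _).trans ?_
      linarith
    · rw [if_pos ⟨h1.le, h2⟩, hsub]
      have b1 := fresnel_unif (a := -a₁) (by linarith)
      have b2 := fresnel_unif (a := a₂) h2
      rw [fresnel_neg, e3, ← abs_of_neg h1] at b1
      nth_rewrite 2 [← abs_of_nonneg h2] at b2
      rw [e3] at b2
      have e : (∫ s in (0 : ℝ)..a₂, f s) - (∫ s in (0 : ℝ)..a₁, f s) - E =
          (-(∫ s in (0 : ℝ)..a₁, f s) - E / 2) + ((∫ s in (0 : ℝ)..a₂, f s) - E / 2) := by ring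
      rw [e]
      refine (norm_add_le _ _).trans ?_
      linarith
  · subst h1
    rw [if_pos ⟨le_refl _, h⟩]
    have b2 := fresnel_unif (a := a₂) h
    nth_rewrite 2 [← abs_of_nonneg h] at b2
    rw [e3] at b2
    have e : (∫ s in (0 : ℝ)..a₂, f s) - E = ((∫ s in (0 : ℝ)..a₂, f s) - E / 2) - E / 2 := by ring
    rw [e]
    refine (norm_sub_le _ _).trans ?_
    have : ‖E / 2‖ = 1 / 2 := by
      rw [norm_div, hEn]
      simp
    rw [this]
    rw [abs_zero]
    norm_num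
    have : ‖(∫ s in (0 : ℝ)..a₂, f s) - E / 2‖ ≤ 3 * (1 / (1 + |a₂|)) := b2
    rw [one_div] at this p2
    linarith
  · have h2 : 0 < a₂ := lt_of_lt_of_le h1 h
    rw [if_neg (by intro h3; linarith [h3.1]), sub_zero, hsub]
    have b1 := fresnel_unif (a := a₁) h1.le
    have b2 := fresnel_unif (a := a₂) h2.le
    nth_rewrite 2 [← abs_of_pos h1] at b1
    nth_rewrite 2 [← abs_of_pos h2] at b2
    rw [e3] at b1 b2
    have e : (∫ s in (0 : ℝ)..a₂, f s) - ∫ s in (0 : ℝ)..a₁, f s =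
        ((∫ s in (0 : ℝ)..a₂, f s) - E / 2) - ((∫ s in (0 : ℝ)..a₁, f s) - E / 2) := by ring
    rw [e]
    refine (norm_sub_le _ _).trans ?_
    linarith

/-- Module Fres. -/
theorem fres : TFres := by
  refine ⟨4, by norm_num, ?_⟩
  intro ε ρ y₁ y₂ hε hy
  have hs : 0 < Real.sqrt ε := Real.sqrt_pos.mpr hε
  have hss : Real.sqrt ε * Real.sqrt ε = ε := Real.mul_self_sqrt hε.le
  set r : ℝ := Real.sqrt ε with hr
  have hr0 : (r : ℂ) ≠ 0 := by exact_mod_cast hs.ne'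
  -- substitution `s = r * y - ρ / r`
  have hsubst := intervalIntegral.integral_comp_mul_sub (a := y₁) (b := y₂)
    (fun s : ℝ => Complex.exp (Real.pi * Complex.I * (s : ℂ) ^ 2)) hs.ne' (ρ / r)
  have hpt : ∀ y : ℝ, ee (ε * y ^ 2 / 2 - ρ * y) = ee (-(ρ ^ 2 / (2 * ε))) *
      Complex.exp (Real.pi * Complex.I * ((r * y - ρ / r : ℝ) : ℂ) ^ 2) := by
    intro y
    unfold ee ei
    rw [← Complex.exp_add]
    congr 1
    rw [← hss]
    push_cast
    field_simp
    ring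
  have hint : (∫ y in y₁..y₂, ee (ε * y ^ 2 / 2 - ρ * y)) =
      ((1 / r : ℝ) : ℂ) * (ee (-(ρ ^ 2 / (2 * ε))) *
        ∫ s in (r * y₁ - ρ / r)..(r * y₂ - ρ / r), Complex.exp (Real.pi * Complex.I * (s : ℂ) ^ 2)) := by
    rw [intervalIntegral.integral_congr (fun y _ => hpt y), intervalIntegral.integral_const_mul,
      hsubst, Complex.real_smul]
    push_cast
    ring
  have hcond : ∀ y : ℝ, r * y - ρ / r = (ε * y - ρ) / r := by
    intro y
    rw [← hss]
    field_simp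
  have hle : r * y₁ - ρ / r ≤ r * y₂ - ρ / r := by
    have := mul_le_mul_of_nonneg_left hy hs.le
    linarith
  have hmain := fresnel_interval hle
  have hc1 : (r * y₁ - ρ / r ≤ 0 ∧ 0 ≤ r * y₂ - ρ / r) ↔ (y₁ ≤ ρ / ε ∧ ρ / ε ≤ y₂) := by
    rw [hcond, hcond, div_le_iff₀ hs, le_div_iff₀ hs, zero_mul,
      le_div_iff₀ hε, div_le_iff₀ hε]
    constructor
    · rintro ⟨h1, h2⟩
      constructor <;> linarith
    · rintro ⟨h1, h2⟩
      constructor <;> linarith
  have hee : ∀ x : ℝ, ‖ee x‖ = 1 := by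
    intro x
    unfold ee ei
    rw [Complex.norm_exp_ofReal_mul_I]
  have hE : Complex.exp (Real.pi * Complex.I / 4) = ee (1 / 8) := by
    unfold ee ei
    congr 1
    push_cast
    ring
  have hmn : ∀ y : ℝ, mn (1 / r) (ε * y - ρ) = 1 / r * (1 / (1 + |r * y - ρ / r|)) := by
    intro y
    unfold mn
    rw [hcond, abs_div, abs_of_pos hs]
    ring
  have hdiff : (∫ y in y₁..y₂, ee (ε * y ^ 2 / 2 - ρ * y)) -
        (if y₁ ≤ ρ / ε ∧ ρ / ε ≤ y₂ then
          ((1 / r : ℝ) : ℂ) * ee (1 / 8 - ρ ^ 2 / (2 * ε)) else 0) =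
      ((1 / r : ℝ) : ℂ) * (ee (-(ρ ^ 2 / (2 * ε))) *
        ((∫ s in (r * y₁ - ρ / r)..(r * y₂ - ρ / r), Complex.exp (Real.pi * Complex.I * (s : ℂ) ^ 2)) -
          (if r * y₁ - ρ / r ≤ 0 ∧ 0 ≤ r * y₂ - ρ / r then
            Complex.exp (Real.pi * Complex.I / 4) else 0))) := by
    rw [hint]
    by_cases hc : y₁ ≤ ρ / ε ∧ ρ / ε ≤ y₂
    · rw [if_pos hc, if_pos (hc1.mpr hc), hE]
      have : ee (1 / 8 - ρ ^ 2 / (2 * ε)) = ee (-(ρ ^ 2 / (2 * ε))) * ee (1 / 8) := by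
        unfold ee ei
        rw [← Complex.exp_add]
        congr 1
        push_cast
        ring
      rw [this]
      ring
    · rw [if_neg hc, if_neg (fun h => hc (hc1.mp h))]
      ring
  rw [hdiff, norm_mul, norm_mul, hee, one_mul, Complex.norm_real, Real.norm_of_nonneg (by positivity),
    hmn, hmn]
  calc 1 / r * _ ≤ 1 / r * (4 * (1 / (1 + |r * y₁ - ρ / r|) + 1 / (1 + |r * y₂ - ρ / r|))) := by
        apply mul_le_mul_of_nonneg_left hmain
        positivity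
    _ = _ := by ring

end Pool.Agent.H67.Cubic
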