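import Pool.Agent.H98.Cubic.Targets

/-! Module Gauss (finite Fourier expansion of a quadratic phase) for MP_56c76e_nt,
blueprint of helper98. -/

set_option autoImplicit false

open Finset

namespace Pool.Agent.H67.Cubic

open Pool.Agent.H98.Cubic

theorem sum_range_zmod (D : ℕ) [NeZero D] (g : ZMod D → ℂ) :
    ∑ r ∈ range D, g (r : ZMod D) = ∑ x : ZMod D, g x := by
  refine Finset.sum_nbij' (fun r => (r : ZMod D)) (fun x => x.val) ?_ ?_ ?_ ?_ ?_
  · intro a _
    exact Finset.mem_univ _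
  · intro a _
    exact Finset.mem_range.mpr (ZMod.val_lt a)
  · intro a ha
    exact ZMod.val_cast_of_lt (Finset.mem_range.mp ha)
  · intro a _
    exact ZMod.natCast_zmod_val a
  · intro a _
    rfl

theorem ee_std (D : ℕ) [NeZero D] (j : ℤ) :
    ZMod.stdAddChar (N := D) (j : ZMod D) = ee ((j : ℝ) / D) := by
  rw [ZMod.stdAddChar_coe]
  unfold ee ei
  congr 1
  push_cast
  ring

theorem conj_std (D : ℕ) [NeZero D] (x : ZMod D) :
    (starRingEnd ℂ) (ZMod.stdAddChar (N := D) x) = ZMod.stdAddChar (N := D) (-x) := by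
  obtain ⟨j, rfl⟩ := ZMod.intCast_surjective x
  rw [← Int.cast_neg, ee_std, ee_std]
  unfold ee ei
  rw [← Complex.exp_conj]
  congr 1
  simp only [map_mul, Complex.conj_ofReal, Complex.conj_I]
  push_cast
  ring

theorem norm_std (D : ℕ) [NeZero D] (x : ZMod D) : ‖ZMod.stdAddChar (N := D) x‖ = 1 := by
  obtain ⟨j, rfl⟩ := ZMod.intCast_surjective x
  rw [ee_std]
  unfold ee ei
  rw [Complex.norm_exp_ofReal_mul_I]

/-- The Gauss sum bound. -/
theorem gauss_sum_bound (p q D : ℕ) (hpq : Nat.Coprime p q) (hD : D = 2 * q ^ 2)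
    [NeZero D] (r : ZMod D) :
    ‖∑ v : ZMod D, ZMod.stdAddChar (N := D) ((p : ZMod D) ^ 2 * v ^ 2) *
      ZMod.stdAddChar (N := D) (r * v)‖ ≤ 2 * q := by
  set e := ZMod.stdAddChar (N := D) with he
  set P : ZMod D := (p : ZMod D) with hP
  set S : ℂ := ∑ v : ZMod D, e (P ^ 2 * v ^ 2) * e (r * v) with hS
  have h1 : S * (starRingEnd ℂ) S =
      ∑ h : ZMod D, e (P ^ 2 * h ^ 2 + r * h) * ∑ u : ZMod D, e (u * (2 * P ^ 2 * h)) := by
    rw [hS, map_sum, Finset.sum_mul_sum]
    have : ∀ v : ZMod D, ∑ u : ZMod D, e (P ^ 2 * v ^ 2) * e (r * v) *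
        (starRingEnd ℂ) (e (P ^ 2 * u ^ 2) * e (r * u)) =
        ∑ u : ZMod D, e (P ^ 2 * (v ^ 2 - u ^ 2) + r * (v - u)) := by
      intro v
      refine Finset.sum_congr rfl fun u _ => ?_
      rw [RingHom.map_mul, conj_std, conj_std, ← AddChar.map_add_eq_mul, ← AddChar.map_add_eq_mul,
        ← AddChar.map_add_eq_mul]
      congr 1
      ring
    rw [Finset.sum_congr rfl fun v _ => this v, Finset.sum_comm]
    have h2 : ∀ u : ZMod D, ∑ v : ZMod D, e (P ^ 2 * (v ^ 2 - u ^ 2) + r * (v - u)) =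
        ∑ h : ZMod D, e (P ^ 2 * h ^ 2 + r * h) * e (u * (2 * P ^ 2 * h)) := by
      intro u
      rw [← Equiv.sum_comp (Equiv.addRight u)]
      refine Finset.sum_congr rfl fun h _ => ?_
      rw [← AddChar.map_add_eq_mul]
      congr 1
      simp only [Equiv.coe_addRight]
      ring
    rw [Finset.sum_congr rfl fun u _ => h2 u, Finset.sum_comm]
    refine Finset.sum_congr rfl fun h _ => ?_
    rw [Finset.mul_sum]
  have h2 : ∀ h : ZMod D, (∑ u : ZMod D, e (u * (2 * P ^ 2 * h))) =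
      if 2 * P ^ 2 * h = 0 then (D : ℂ) else 0 := by
    intro h
    have := AddChar.sum_mulShift (2 * P ^ 2 * h) (ZMod.isPrimitive_stdAddChar D)
    rw [he, this, ZMod.card]
    split_ifs <;> simp
  have h3 : ‖S‖ ^ 2 ≤ D * ((Finset.univ.filter (fun h : ZMod D => 2 * P ^ 2 * h = 0)).card : ℝ) := by
    have e1 : ((‖S‖ ^ 2 : ℝ) : ℂ) = S * (starRingEnd ℂ) S := by
      rw [Complex.mul_conj, Complex.normSq_eq_norm_sq]
    have e2 : ‖S‖ ^ 2 = ‖S * (starRingEnd ℂ) S‖ := by
      rw [← e1, Complex.norm_real, Real.norm_of_nonneg (by positivity)]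
    rw [e2, h1]
    calc ‖∑ h : ZMod D, e (P ^ 2 * h ^ 2 + r * h) * ∑ u : ZMod D, e (u * (2 * P ^ 2 * h))‖
        ≤ ∑ h : ZMod D, ‖e (P ^ 2 * h ^ 2 + r * h) * ∑ u : ZMod D, e (u * (2 * P ^ 2 * h))‖ :=
          norm_sum_le _ _
      _ = ∑ h : ZMod D, (if 2 * P ^ 2 * h = 0 then (D : ℝ) else 0) := by
          refine Finset.sum_congr rfl fun h _ => ?_
          rw [norm_mul, norm_std, one_mul, h2]
          split_ifs <;> simp
      _ = D * ((Finset.univ.filter (fun h : ZMod D => 2 * P ^ 2 * h = 0)).card : ℝ) := by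
          rw [← Finset.sum_filter, Finset.sum_const, nsmul_eq_mul, mul_comm]
  have h4 : (Finset.univ.filter (fun h : ZMod D => 2 * P ^ 2 * h = 0)).card ≤ 2 := by
    have hsub : (Finset.univ.filter (fun h : ZMod D => 2 * P ^ 2 * h = 0)) ⊆
        ({0, ((q ^ 2 : ℕ) : ZMod D)} : Finset (ZMod D)) := by
      intro h hh
      rw [Finset.mem_filter] at hh
      have hv : ((h.val : ℕ) : ZMod D) = h := ZMod.natCast_zmod_val h
      have hh2 : ((2 * p ^ 2 * h.val : ℕ) : ZMod D) = 0 := by
        push_cast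
        rw [hv]
        exact hh.2
      rw [ZMod.natCast_eq_zero_iff] at hh2
      have hdvd : q ^ 2 ∣ h.val := by
        have : 2 * q ^ 2 ∣ 2 * (p ^ 2 * h.val) := by
          rw [← mul_assoc, ← hD]
          exact hh2
        have h5 : q ^ 2 ∣ p ^ 2 * h.val := Nat.dvd_of_mul_dvd_mul_left (by norm_num) this
        exact (Nat.Coprime.pow 2 2 hpq.symm).dvd_of_dvd_mul_left h5
      obtain ⟨c, hc⟩ := hdvd
      have hlt := ZMod.val_lt h
      have hc2 : c < 2 := by
        by_contra hcon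
        have : 2 ≤ c := by omega
        have h6 : q ^ 2 * 2 ≤ q ^ 2 * c := Nat.mul_le_mul_left _ this
        omega
      rw [Finset.mem_insert, Finset.mem_singleton]
      have hc3 : c = 0 ∨ c = 1 := by omega
      rcases hc3 with hc3 | hc3
      · left
        rw [← hv, hc, hc3]
        simp
      · right
        rw [← hv, hc, hc3, mul_one]
    exact (Finset.card_le_card hsub).trans Finset.card_le_two
  have h5 : ‖S‖ ^ 2 ≤ (2 * q) ^ 2 := by
    refine h3.trans ?_
    have h6 : ((Finset.univ.filter (fun h : ZMod D => 2 * P ^ 2 * h = 0)).card : ℝ) ≤ 2 := by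
      exact_mod_cast h4
    have h7 : (D : ℝ) = 2 * (q : ℝ) ^ 2 := by
      rw [hD]
      push_cast
      ring
    rw [h7]
    nlinarith [sq_nonneg (q : ℝ)]
  exact (sq_le_sq₀ (norm_nonneg _) (by positivity)).mp h5

/-- Module Gauss. -/
theorem gauss : TGauss := by
  intro p q hq hpq
  have hD0 : 2 * q ^ 2 ≠ 0 := by positivity
  obtain ⟨D, hD⟩ : ∃ D : ℕ, D = 2 * q ^ 2 := ⟨_, rfl⟩
  rw [← hD] at hD0 ⊢
  have : NeZero D := ⟨hD0⟩
  have hgb := gauss_sum_bound p q D hpq hD
  set e := ZMod.stdAddChar (N := D) with he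
  set f : ZMod D → ℂ := fun v => e ((p : ZMod D) ^ 2 * v ^ 2) with hf
  set W : ZMod D → ℂ := fun x => (1 / (D : ℂ)) * ∑ v : ZMod D, f v * e (x * v) with hW
  have hDC : (D : ℂ) ≠ 0 := by exact_mod_cast hD0
  refine ⟨fun r => W (r : ZMod D), ?_, ?_, ?_⟩
  · intro r
    simp only
    congr 1
    push_cast
    simp
  · intro r
    simp only [hW]
    have h := hgb (r : ZMod D)
    rw [norm_mul, norm_div, norm_one, Complex.norm_natCast]
    have hq0 : (0 : ℝ) < q := by exact_mod_cast hq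
    have hDr : (D : ℝ) = 2 * (q : ℝ) ^ 2 := by
      rw [hD]
      push_cast
      ring
    calc 1 / (D : ℝ) * ‖∑ v : ZMod D, f v * e (r * v)‖ ≤ 1 / (D : ℝ) * (2 * q) := by
          apply mul_le_mul_of_nonneg_left h
          positivity
      _ = 1 / q := by
          rw [hDr]
          field_simp
  · intro y
    have h1 : ∑ r ∈ range D, W (((r : ℕ) : ℤ) : ZMod D) * ee (-((r : ℝ) * y) / (D : ℝ)) =
        ∑ x : ZMod D, W x * e (-(x * (y : ZMod D))) := by
      rw [← sum_range_zmod D]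
      refine Finset.sum_congr rfl fun r _ => ?_
      have : e (-((r : ZMod D) * (y : ZMod D))) = ee (-((r : ℝ) * y) / (D : ℝ)) := by
        have h2 := ee_std D (-((r : ℤ) * y))
        push_cast at h2
        rw [he, h2]
      rw [this]
      push_cast
      rfl
    rw [h1]
    have h2 : ∑ x : ZMod D, W x * e (-(x * (y : ZMod D))) =
        (1 / (D : ℂ)) * ∑ v : ZMod D, f v * ∑ x : ZMod D, e (x * (v - (y : ZMod D))) := by
      simp only [hW]
      have : ∀ x : ZMod D, 1 / (D : ℂ) * (∑ v : ZMod D, f v * e (x * v)) * e (-(x * (y : ZMod D))) =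
          1 / (D : ℂ) * ∑ v : ZMod D, f v * e (x * (v - (y : ZMod D))) := by
        intro x
        rw [mul_assoc, Finset.sum_mul]
        congr 1
        refine Finset.sum_congr rfl fun v _ => ?_
        rw [mul_assoc, ← AddChar.map_add_eq_mul]
        congr 2
        ring
      rw [Finset.sum_congr rfl fun x _ => this x, ← Finset.mul_sum, Finset.sum_comm]
      congr 1
      refine Finset.sum_congr rfl fun v _ => ?_
      rw [Finset.mul_sum]
    rw [h2]
    have h3 : ∀ v : ZMod D, (∑ x : ZMod D, e (x * (v - (y : ZMod D)))) =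
        if v = (y : ZMod D) then (D : ℂ) else 0 := by
      intro v
      have := AddChar.sum_mulShift (v - (y : ZMod D)) (ZMod.isPrimitive_stdAddChar D)
      rw [he, this, ZMod.card]
      by_cases hv : v = (y : ZMod D)
      · rw [if_pos hv, if_pos (sub_eq_zero.mpr hv)]
      · rw [if_neg hv, if_neg (fun h => hv (sub_eq_zero.mp h))]
        simp
    rw [Finset.sum_congr rfl fun v _ => by rw [h3 v]]
    simp only [mul_ite, mul_zero, Finset.sum_ite_eq', Finset.mem_univ, if_true]
    have h4 : f (y : ZMod D) = ee ((y : ℝ) ^ 2 * ((p : ℝ) / q) ^ 2 / 2) := by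
      have h5 := ee_std D ((p : ℤ) ^ 2 * y ^ 2)
      push_cast at h5
      simp only [hf]
      rw [he, h5]
      congr 1
      have hq0 : (q : ℝ) ≠ 0 := by
        have : q ≠ 0 := by omega
        exact_mod_cast this
      rw [hD]
      push_cast
      field_simp
    rw [h4]
    field_simp

end Pool.Agent.H67.Cubic
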